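import Pool.Agent.H41.GM.Stm

/-!
# Project GM (helper41), module LOW: the divergent case
-/

set_option autoImplicit false

namespace Pool.Agent.H11.GM

open MeasureTheory Filter Topology ProbabilityTheory Pool.Agent.H41.GM

theorem log_ge_one {j : ℕ} (hj : 1 ≤ j) : 1 ≤ Real.log ((j : ℝ) + 2) := by
  have h1 : (1 : ℝ) ≤ j := by exact_mod_cast hj
  rw [Real.le_log_iff_exp_le (by positivity)]
  have := Real.exp_one_lt_d9
  linarith

theorem log_le_self {j : ℕ} (hj : 2 ≤ j) : Real.log ((j : ℝ) + 2) ≤ j := by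
  have h1 : (2 : ℝ) ≤ j := by exact_mod_cast hj
  have h2 : Real.log ((j : ℝ) + 2) = Real.log (((j : ℝ) + 2) / 4) + 2 * Real.log 2 := by
    rw [Real.log_div (by positivity) (by norm_num), show (4 : ℝ) = 2 ^ 2 by norm_num, Real.log_pow]
    push_cast
    ring
  have h3 := Real.log_le_sub_one_of_pos (show (0 : ℝ) < ((j : ℝ) + 2) / 4 by positivity)
  have h4 := Real.log_two_lt_d9
  linarith

theorem sc_pos (n : ℕ) : 0 < sc n := by
  have : 0 < Real.log ((n : ℝ) + 2) := Real.log_pos (by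
    have : (0 : ℝ) ≤ n := Nat.cast_nonneg n
    linarith)
  unfold sc
  positivity

theorem one_le_sc {j : ℕ} (hj : 1 ≤ j) : 1 ≤ sc j := one_le_pow₀ (log_ge_one hj)

theorem one_le_aa {j : ℕ} (hj : 2 ≤ j) : 1 ≤ aa j := by
  have h1 := log_ge_one (show 1 ≤ j by omega)
  refine Real.one_le_rpow ?_ (by norm_num)
  rw [le_div_iff₀ (by linarith), one_mul]
  exact log_le_self hj

/-- the size of the gaps -/
noncomputable def gp (C j : ℕ) : ℕ := ⌈250 * ((C : ℝ) * (j * sc j)) ^ (4 / 5 : ℝ)⌉₊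

theorem gp_le {C j : ℕ} (hC : 1 ≤ C) (hj : 2 ≤ j) : (gp C j : ℝ) ≤ 251 * C * (aa j * sc j) := by
  have hC1 : (1 : ℝ) ≤ C := by exact_mod_cast hC
  have hj2 : (2 : ℝ) ≤ j := by exact_mod_cast hj
  have hL := log_ge_one (show 1 ≤ j by omega)
  have h1 : ((C : ℝ) * (j * sc j)) ^ (4 / 5 : ℝ) = (C : ℝ) ^ (4 / 5 : ℝ) * (aa j * sc j) := by
    unfold aa sc
    set L := Real.log ((j : ℝ) + 2) with hLdef
    have hL0 : 0 < L := by linarith
    have e1 : (j : ℝ) * L ^ 4 = (j : ℝ) / L * L ^ 5 := by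
      field_simp
    have e2 : (L ^ 5) ^ (4 / 5 : ℝ) = L ^ 4 := by
      rw [← Real.rpow_natCast L 5, ← Real.rpow_mul hL0.le, ← Real.rpow_natCast L 4]
      norm_num
    rw [e1, Real.mul_rpow (by linarith) (by positivity), Real.mul_rpow (by positivity) (by positivity),
      e2]
  have h2 : (C : ℝ) ^ (4 / 5 : ℝ) ≤ C := by
    calc (C : ℝ) ^ (4 / 5 : ℝ) ≤ (C : ℝ) ^ (1 : ℝ) :=
          Real.rpow_le_rpow_of_exponent_le hC1 (by norm_num)
      _ = C := Real.rpow_one _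
  have h3 : 1 ≤ aa j * sc j := one_le_mul_of_one_le_of_one_le (one_le_aa hj) (one_le_sc (by omega))
  have h4 : (gp C j : ℝ) ≤ 250 * ((C : ℝ) * (j * sc j)) ^ (4 / 5 : ℝ) + 1 := by
    refine (Nat.ceil_lt_add_one ?_).le
    have := sc_pos j
    positivity
  rw [h1] at h4
  have h5 : (C : ℝ) ^ (4 / 5 : ℝ) * (aa j * sc j) ≤ C * (aa j * sc j) :=
    mul_le_mul_of_nonneg_right h2 (by linarith)
  have h6 : aa j * sc j ≤ C * (aa j * sc j) := le_mul_of_one_le_left (by linarith) hC1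
  linarith

theorem ratio_le {C j m : ℕ} (hC : 1 ≤ C) (hj : 2 ≤ j) (hjC : C ^ 2 ≤ j)
    (hm : (j : ℝ) * sc j ≤ C * m) : (gp C j : ℝ) / sc m ≤ 4016 * C * aa j := by
  have hC1 : (1 : ℝ) ≤ C := by exact_mod_cast hC
  have hj2 : (2 : ℝ) ≤ j := by exact_mod_cast hj
  have hjC' : (C : ℝ) ^ 2 ≤ j := by exact_mod_cast hjC
  have hm0 : (0 : ℝ) ≤ m := Nat.cast_nonneg m
  have h0 : (j : ℝ) ≤ C * m := by
    have := one_le_sc (show 1 ≤ j by omega)
    nlinarith
  have h1 : (j : ℝ) + 2 ≤ ((m : ℝ) + 2) ^ 2 := by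
    have h2 : (j : ℝ) ^ 2 ≤ (C : ℝ) ^ 2 * (m : ℝ) ^ 2 := by
      rw [← mul_pow]; exact pow_le_pow_left₀ (by linarith) h0 2
    have h3 : (C : ℝ) ^ 2 * (m : ℝ) ^ 2 ≤ j * (m : ℝ) ^ 2 :=
      mul_le_mul_of_nonneg_right hjC' (sq_nonneg _)
    have h4 : (j : ℝ) * j ≤ j * (m : ℝ) ^ 2 := by nlinarith
    have h5 : (j : ℝ) ≤ (m : ℝ) ^ 2 := le_of_mul_le_mul_left h4 (by linarith)
    nlinarith
  have h2 : Real.log ((j : ℝ) + 2) ≤ 2 * Real.log ((m : ℝ) + 2) := by
    have := Real.log_le_log (by linarith) h1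
    rw [Real.log_pow] at this
    exact_mod_cast this
  have h3 : sc j ≤ 16 * sc m := by
    have h4 := log_ge_one (show 1 ≤ j by omega)
    unfold sc
    calc Real.log ((j : ℝ) + 2) ^ 4 ≤ (2 * Real.log ((m : ℝ) + 2)) ^ 4 :=
          pow_le_pow_left₀ (by linarith) h2 4
      _ = _ := by ring
  rw [div_le_iff₀ (sc_pos m)]
  have h5 := one_le_aa hj
  calc (gp C j : ℝ) ≤ 251 * C * (aa j * sc j) := gp_le hC hj
    _ ≤ 251 * C * (aa j * (16 * sc m)) :=
        mul_le_mul_of_nonneg_left (mul_le_mul_of_nonneg_left h3 (by linarith)) (by linarith)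
    _ = _ := by ring

section prob

variable {Ω : Type} [mΩ : MeasurableSpace Ω] {P : Measure Ω} [IsProbabilityMeasure P]
  {ℱ : Filtration ℕ mΩ} {q : ℕ → Ω → ℕ} {T : ℝ → ℝ}

/-- the good events -/
def Gd (q : ℕ → Ω → ℕ) (C j : ℕ) : Set Ω :=
  {ω | (j : ℝ) * sc j ≤ C * q j ω ∧ (q j ω : ℝ) ≤ C * (j * sc j)}

/-- good events with a small gap -/
def Dd (q : ℕ → Ω → ℕ) (C j : ℕ) : Set Ω := Gd q C j ∩ {ω | q (j + 1) ω ≤ q j ω + gp C j}

/-- small gaps for `k` steps -/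
def Nn (q : ℕ → Ω → ℕ) (C J : ℕ) : ℕ → Set Ω
  | 0 => Set.univ
  | k + 1 => Nn q C J k ∩ Dd q C (J + k)

theorem meas_Gd (hq : ∀ j, Measurable[ℱ j] (q j)) (C j : ℕ) : MeasurableSet[ℱ j] (Gd q C j) := by
  have : Gd q C j = q j ⁻¹' {m : ℕ | (j : ℝ) * sc j ≤ C * m ∧ (m : ℝ) ≤ C * (j * sc j)} := rfl
  rw [this]
  exact hq j (MeasurableSet.of_discrete)

theorem meas_Dd (hq : ∀ j, Measurable[ℱ j] (q j)) (C j : ℕ) :
    MeasurableSet[ℱ (j + 1)] (Dd q C j) := by
  refine MeasurableSet.inter (ℱ.mono (Nat.le_succ j) _ (meas_Gd hq C j)) ?_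
  have h1 : Measurable[ℱ (j + 1)] (q j) := (hq j).mono (ℱ.mono (Nat.le_succ j)) le_rfl
  have e : {ω | q (j + 1) ω ≤ q j ω + gp C j} =
      ⋃ m : ℕ, (q j ⁻¹' {m}) ∩ (q (j + 1) ⁻¹' {k | k ≤ m + gp C j}) := by
    ext ω
    simp
  rw [e]
  exact MeasurableSet.iUnion fun m => MeasurableSet.inter (h1 MeasurableSet.of_discrete)
    (hq (j + 1) MeasurableSet.of_discrete)

theorem meas_Nn (hq : ∀ j, Measurable[ℱ j] (q j)) (C J k : ℕ) :
    MeasurableSet[ℱ (J + k)] (Nn q C J k) := by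
  induction k with
  | zero => exact @MeasurableSet.univ _ (ℱ (J + 0))
  | succ k ih =>
    exact MeasurableSet.inter (ℱ.mono (Nat.le_succ _) _ ih) (meas_Dd hq C (J + k))

/-- one step -/
theorem gap_ge (hq : ∀ j, Measurable[ℱ j] (q j)) {c₁ t : ℝ} {C j h K : ℕ} {A : Set Ω}
    (hA : MeasurableSet[ℱ j] A) (hK : ∀ ω ∈ A, q j ω < K)
    (ht : ∀ m : ℕ, (∃ ω ∈ A, q j ω = m) → ∀ B : Set Ω, MeasurableSet[ℱ j] B →
      B ⊆ {ω | q j ω = m} → c₁ * t * P.real B ≤ P.real (B ∩ {ω | m + h < q (j + 1) ω})) :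
    c₁ * t * P.real A ≤ P.real (A ∩ {ω | q j ω + h < q (j + 1) ω}) := by
  have hle := ℱ.le j
  have hle' := ℱ.le (j + 1)
  have hAm : MeasurableSet A := hle _ hA
  have hqm : ∀ m : ℕ, MeasurableSet[ℱ j] {ω | q j ω = m} := fun m =>
    hq j (MeasurableSet.of_discrete (s := ({m} : Set ℕ)))
  have hq1 : Measurable (q (j + 1)) := (hq (j + 1)).mono hle' le_rfl
  have hBm : ∀ m : ℕ, MeasurableSet (A ∩ {ω | q j ω = m}) := fun m => hAm.inter (hle _ (hqm m))
  have hdis : (Finset.range K : Set ℕ).PairwiseDisjoint fun m => A ∩ {ω | q j ω = m} := by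
    intro m _ m' _ hne
    rw [Function.onFun, Set.disjoint_left]
    rintro ω ⟨_, h1⟩ ⟨_, h2⟩
    exact hne (h1.symm.trans h2)
  have hdis' : (Finset.range K : Set ℕ).PairwiseDisjoint
      fun m => (A ∩ {ω | q j ω = m}) ∩ {ω | m + h < q (j + 1) ω} := by
    intro m hm m' hm' hne
    exact (hdis hm hm' hne).mono Set.inter_subset_left Set.inter_subset_left
  have e1 : A = ⋃ m ∈ Finset.range K, A ∩ {ω | q j ω = m} := by
    ext ω
    simp only [Set.mem_iUnion, Finset.mem_range, exists_prop]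
    exact ⟨fun hω => ⟨q j ω, hK ω hω, hω, rfl⟩, fun ⟨_, _, hω, _⟩ => hω⟩
  have e2 : (⋃ m ∈ Finset.range K, (A ∩ {ω | q j ω = m}) ∩ {ω | m + h < q (j + 1) ω}) ⊆
      A ∩ {ω | q j ω + h < q (j + 1) ω} := by
    intro ω hω
    simp only [Set.mem_iUnion, exists_prop] at hω
    obtain ⟨m, _, ⟨h1, h2⟩, h3⟩ := hω
    refine ⟨h1, ?_⟩
    have h2' : q j ω = m := h2
    have h3' : m + h < q (j + 1) ω := h3
    show q j ω + h < q (j + 1) ω
    rw [h2']
    exact h3'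
  have s1 : P.real A = ∑ m ∈ Finset.range K, P.real (A ∩ {ω | q j ω = m}) := by
    conv_lhs => rw [e1]
    exact measureReal_biUnion_finset hdis fun m _ => hBm m
  have s2 : ∑ m ∈ Finset.range K, P.real ((A ∩ {ω | q j ω = m}) ∩ {ω | m + h < q (j + 1) ω}) ≤
      P.real (A ∩ {ω | q j ω + h < q (j + 1) ω}) := by
    rw [← measureReal_biUnion_finset hdis' fun m _ =>
      (hBm m).inter (measurableSet_lt measurable_const hq1)]
    exact measureReal_mono e2
  refine le_trans ?_ s2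
  rw [s1, Finset.mul_sum]
  refine Finset.sum_le_sum fun m _ => ?_
  by_cases hm : ∃ ω ∈ A, q j ω = m
  · exact ht m hm _ (MeasurableSet.inter hA (hqm m)) Set.inter_subset_right
  · have : A ∩ {ω | q j ω = m} = ∅ := by
      rw [Set.eq_empty_iff_forall_notMem]
      rintro ω ⟨h1, h2⟩
      exact hm ⟨ω, h1, h2⟩
    rw [this]
    simp

theorem step (hG : Gaps P ℱ q T) (hT : Antitone T) {c₁ : ℝ} (hc₁ : 0 < c₁) {M : ℕ}
    (htail : ∀ j m h : ℕ, M ≤ m → ∀ B : Set Ω, MeasurableSet[ℱ j] B → B ⊆ {ω | q j ω = m} →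
      c₁ * T (h / sc m) * P.real B ≤ P.real (B ∩ {ω | m + h < q (j + 1) ω}))
    {C : ℕ} (hC : 1 ≤ C) {J k : ℕ} (hJ : 2 ≤ J + k) (hJC : C ^ 2 ≤ J + k) (hJM : C * M ≤ J + k) :
    P.real (Nn q C J (k + 1)) ≤
      Real.exp (-(c₁ * T (4016 * C * aa (J + k)))) * P.real (Nn q C J k) := by
  set j := J + k with hj
  have hC1 : (1 : ℝ) ≤ C := by exact_mod_cast hC
  set A : Set Ω := Nn q C J k ∩ Gd q C j with hA
  have hAm : MeasurableSet[ℱ j] A := MeasurableSet.inter (meas_Nn hG.meas C J k) (meas_Gd hG.meas C j)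
  have hstep := gap_ge (P := P) hG.meas (c₁ := c₁) (t := T (4016 * C * aa j)) (C := C) (j := j)
    (h := gp C j) (K := ⌊(C : ℝ) * (j * sc j)⌋₊ + 1) hAm
    (fun ω hω => Nat.lt_succ_of_le (Nat.le_floor hω.2.2))
    (fun m hm B hB hBm => by
      obtain ⟨ω, hω, rfl⟩ := hm
      have h1 : (j : ℝ) * sc j ≤ C * q j ω := hω.2.1
      have h2 : M ≤ q j ω := by
        have h3 : (j : ℝ) ≤ C * q j ω := by
          have := one_le_sc (show 1 ≤ j by omega)
          have h4 : (0 : ℝ) ≤ j := Nat.cast_nonneg j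
          nlinarith
        have h5 : j ≤ C * q j ω := by exact_mod_cast h3
        exact Nat.le_of_mul_le_mul_left (hJM.trans h5) (by omega)
      refine le_trans ?_ (htail j (q j ω) (gp C j) h2 B hB hBm)
      refine mul_le_mul_of_nonneg_right ?_ measureReal_nonneg
      exact mul_le_mul_of_nonneg_left (hT (ratio_le hC hJ hJC h1)) hc₁.le)
  have hsub : Nn q C J (k + 1) ⊆ A \ (A ∩ {ω | q j ω + gp C j < q (j + 1) ω}) := by
    rintro ω ⟨h1, h2, h3⟩
    refine ⟨⟨h1, h2⟩, fun h4 => ?_⟩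
    have h5 : q (j + 1) ω ≤ q j ω + gp C j := h3
    have h6 : q j ω + gp C j < q (j + 1) ω := h4.2
    omega
  have hAm' : MeasurableSet A := ℱ.le j _ hAm
  have hq0 : Measurable (q j) := (hG.meas j).mono (ℱ.le j) le_rfl
  have hq1 : Measurable (q (j + 1)) := (hG.meas (j + 1)).mono (ℱ.le (j + 1)) le_rfl
  have hEm : MeasurableSet (A ∩ {ω | q j ω + gp C j < q (j + 1) ω}) :=
    hAm'.inter (measurableSet_lt (hq0.add_const _) hq1)
  have h1 : P.real (Nn q C J (k + 1)) ≤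
      P.real A - P.real (A ∩ {ω | q j ω + gp C j < q (j + 1) ω}) := by
    rw [← measureReal_sdiff Set.inter_subset_left hEm]
    exact measureReal_mono hsub
  have h2 : P.real A ≤ P.real (Nn q C J k) := measureReal_mono Set.inter_subset_left
  have h3 : 1 - c₁ * T (4016 * C * aa j) ≤ Real.exp (-(c₁ * T (4016 * C * aa j))) := by
    have := Real.add_one_le_exp (-(c₁ * T (4016 * C * aa j)))
    linarith
  have h4 : (0 : ℝ) ≤ P.real A := measureReal_nonneg
  calc P.real (Nn q C J (k + 1)) ≤ (1 - c₁ * T (4016 * C * aa j)) * P.real A := by linarith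
    _ ≤ Real.exp (-(c₁ * T (4016 * C * aa j))) * P.real A := mul_le_mul_of_nonneg_right h3 h4
    _ ≤ _ := mul_le_mul_of_nonneg_left h2 (Real.exp_pos _).le

end prob

theorem low (hSUM : S_SUM) : S_LOW := by
  intro Ω mΩ P _ ℱ q T hT hT0 hG hns
  obtain ⟨c₁, c₂, hc₁, hc₂, M, htail⟩ := hG.tail
  have htail' : ∀ j m h : ℕ, M ≤ m → ∀ B : Set Ω, MeasurableSet[ℱ j] B → B ⊆ {ω | q j ω = m} →
      c₁ * T (h / sc m) * P.real B ≤ P.real (B ∩ {ω | m + h < q (j + 1) ω}) :=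
    fun j m h hm B hB hBm => (htail j m h hm B hB hBm).1
  -- the events have probability zero
  have hzero : ∀ C : ℕ, 1 ≤ C → ∀ J : ℕ, 2 + C ^ 2 + C * M ≤ J → P (⋂ k, Nn q C J k) = 0 := by
    intro C hC J hJ
    have hC1 : (1 : ℝ) ≤ C := by exact_mod_cast hC
    have hns1 : ¬ Summable fun j : ℕ => T (4016 * C * aa j) := fun h =>
      hns ((hSUM T hT hT0 (4016 * C) (by linarith)).1 h)
    have hns2 : ¬ Summable fun i : ℕ => c₁ * T (4016 * C * aa (J + i)) := by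
      intro h
      apply hns1
      have h1 : Summable fun i : ℕ => T (4016 * C * aa (J + i)) := by
        have h2 := h.mul_left c₁⁻¹
        refine h2.congr fun i => ?_
        field_simp
      have h2 : Summable fun i : ℕ => T (4016 * C * aa (i + J)) := by
        refine h1.congr fun i => ?_
        rw [add_comm]
      exact (summable_nat_add_iff (f := fun j : ℕ => T (4016 * C * aa j)) J).1 h2
    have hdiv := (not_summable_iff_tendsto_nat_atTop_of_nonneg fun i =>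
      mul_nonneg hc₁.le (hT0 (4016 * C * aa (J + i)))).1 hns2
    have hbd : ∀ k, P.real (Nn q C J k) ≤
        Real.exp (-∑ i ∈ Finset.range k, c₁ * T (4016 * C * aa (J + i))) := by
      intro k
      induction k with
      | zero => simp [Nn]
      | succ k ih =>
        refine (step hG hT hc₁ htail' hC (by omega) (by omega) (by omega)).trans ?_
        rw [Finset.sum_range_succ, neg_add, Real.exp_add, mul_comm]
        exact mul_le_mul_of_nonneg_right ih (Real.exp_pos _).le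
    have hlim : Tendsto (fun k : ℕ =>
        Real.exp (-∑ i ∈ Finset.range k, c₁ * T (4016 * C * aa (J + i)))) atTop (𝓝 0) :=
      Real.tendsto_exp_neg_atTop_nhds_zero.comp hdiv
    have hle : P.real (⋂ k, Nn q C J k) ≤ 0 := by
      refine ge_of_tendsto' hlim fun k => ?_
      exact (measureReal_mono (Set.iInter_subset _ k)).trans (hbd k)
    have h0 : P.real (⋂ k, Nn q C J k) = 0 := le_antisymm hle measureReal_nonneg
    rwa [measureReal_eq_zero_iff] at h0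
  have hall : ∀ᵐ ω ∂P, ∀ C : ℕ, 1 ≤ C → ∀ J : ℕ, 2 + C ^ 2 + C * M ≤ J →
      ω ∉ ⋂ k, Nn q C J k := by
    rw [ae_all_iff]
    intro C
    rw [ae_all_iff]
    intro hC
    rw [ae_all_iff]
    intro J
    rw [ae_all_iff]
    intro hJ
    exact measure_eq_zero_iff_ae_notMem.1 (hzero C hC J hJ)
  filter_upwards [hall, hG.order] with ω hω hord
  obtain ⟨C₀, hC₀, hev⟩ := hord
  obtain ⟨C, hCC⟩ := exists_nat_ge (max C₀ 1)
  have hC0 : C₀ ≤ C := (le_max_left _ _).trans hCC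
  have hC1 : (1 : ℝ) ≤ C := (le_max_right _ _).trans hCC
  have hC : 1 ≤ C := by exact_mod_cast hC1
  rw [Filter.frequently_atTop]
  intro a
  obtain ⟨b, hb⟩ := eventually_atTop.1 hev
  set J := max a b + (2 + C ^ 2 + C * M) with hJ
  have h1 := hω C hC J (by omega)
  -- a step where the event fails
  have h2 : ∃ k, ω ∉ Dd q C (J + k) := by
    by_contra hcon
    push Not at hcon
    apply h1
    rw [Set.mem_iInter]
    intro k
    induction k with
    | zero => exact Set.mem_univ _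
    | succ k ih => exact ⟨ih, hcon k⟩
  obtain ⟨k, hk⟩ := h2
  refine ⟨J + k, by omega, ?_⟩
  obtain ⟨g1, g2⟩ := hb (J + k) (by omega)
  have hj0 : (0 : ℝ) ≤ ((J + k : ℕ) : ℝ) * sc (J + k) :=
    mul_nonneg (Nat.cast_nonneg _) (sc_pos _).le
  have g1' : ((J + k : ℕ) : ℝ) * sc (J + k) ≤ C * q (J + k) ω :=
    g1.trans (mul_le_mul_of_nonneg_right hC0 (Nat.cast_nonneg _))
  have g2' : (q (J + k) ω : ℝ) ≤ C * (((J + k : ℕ) : ℝ) * sc (J + k)) :=
    g2.trans (mul_le_mul_of_nonneg_right hC0 hj0)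
  have h3 : q (J + k) ω + gp C (J + k) < q (J + k + 1) ω := by
    by_contra hcon
    exact hk ⟨⟨g1', g2'⟩, not_lt.1 hcon⟩
  have h4 : ((q (J + k) ω : ℝ) + gp C (J + k)) < q (J + k + 1) ω := by exact_mod_cast h3
  have h5 : 250 * ((C : ℝ) * (((J + k : ℕ) : ℝ) * sc (J + k))) ^ (4 / 5 : ℝ) ≤ gp C (J + k) :=
    Nat.le_ceil _
  have h6 : (q (J + k) ω : ℝ) ^ (4 / 5 : ℝ) ≤
      ((C : ℝ) * (((J + k : ℕ) : ℝ) * sc (J + k))) ^ (4 / 5 : ℝ) :=
    Real.rpow_le_rpow (Nat.cast_nonneg _) g2' (by norm_num)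
  linarith

end Pool.Agent.H11.GM
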